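import Mathlib

set_option autoImplicit false

open MeasureTheory Filter Topology
open scoped ENNReal ContDiff MeasureTheory

namespace Pool.Agent.Results.MP_9e0505_an.BesovNullSet

/-! ### The automaton -/

inductive St : Type
  | Z (a : ℕ) : St
  | F (r : ℕ) : St
  | D : St
  deriving DecidableEq

open St

/-- transition on reading the base 4 digit `c`. -/
def step : St → ℕ → St
  | Z a, c => if c = 0 then Z (a + 1) else
      if a % 3 = 1 then (if a / 3 = 0 then Z 0 else F (a / 3 - 1)) else D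
  | F 0, _ => Z 0
  | F (r + 1), _ => F r
  | D, _ => D

/-- the weight of a state. -/
def th : St → ℕ
  | Z a => if a % 3 = 1 then 2 ^ (a / 3 + 1) else 2 ^ (a / 3)
  | F r => 2 ^ (r + 1)
  | D => 0

/-- the state after reading the `i` base 4 digits of `j`, starting from `s`. -/
def run (s : St) : ℕ → ℕ → St
  | 0, _ => s
  | i + 1, j => step (run s i (j / 4)) (j % 4)

lemma step_Z_zero (a : ℕ) : step (Z a) 0 = Z (a + 1) := by simp [step]

lemma th_step (s : St) : ∑ c ∈ Finset.range 4, th (step s c) = 2 * th s := by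
  rcases s with a | r | _
  · obtain ⟨t, rfl | rfl | rfl⟩ : ∃ t, a = 3 * t ∨ a = 3 * t + 1 ∨ a = 3 * t + 2 :=
      ⟨a / 3, by omega⟩
    · have h1 : (3 * t) % 3 = 0 := by omega
      have h2 : (3 * t + 1) % 3 = 1 := by omega
      have h3 : (3 * t) / 3 = t := by omega
      have h4 : (3 * t + 1) / 3 = t := by omega
      simp [Finset.sum_range_succ, step, th, h1, h2, h3, h4]
      ring
    · have h1 : (3 * t + 1) % 3 = 1 := by omega
      have h2 : (3 * t + 1 + 1) % 3 = 2 := by omega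
      have h3 : (3 * t + 1) / 3 = t := by omega
      have h4 : (3 * t + 1 + 1) / 3 = t := by omega
      rcases t with _ | t
      · simp [Finset.sum_range_succ, step, th]
      · simp [Finset.sum_range_succ, step, th, h1, h2, h3, h4]
        ring
    · have h1 : (3 * t + 2) % 3 = 2 := by omega
      have h2 : (3 * t + 2 + 1) % 3 = 0 := by omega
      have h3 : (3 * t + 2) / 3 = t := by omega
      have h4 : (3 * t + 2 + 1) / 3 = t + 1 := by omega
      simp [Finset.sum_range_succ, step, th, h1, h2, h3, h4]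
      ring
  · rcases r with _ | r
    · simp [step, th]
    · simp [step, th]
      ring
  · simp [step, th]

lemma sum_range_four (i : ℕ) (f : ℕ → ℕ) :
    ∑ m ∈ Finset.range (4 ^ (i + 1)), f m =
      ∑ j ∈ Finset.range (4 ^ i), ∑ c ∈ Finset.range 4, f (4 * j + c) := by
  rw [pow_succ, mul_comm]
  generalize 4 ^ i = n
  induction n with
  | zero => simp
  | succ n ih => rw [Finset.sum_range_succ, ← ih, Nat.mul_succ, Finset.sum_range_add]

lemma run_succ (s : St) (i j c : ℕ) (hc : c < 4) :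
    run s (i + 1) (4 * j + c) = step (run s i j) c := by
  have h1 : (4 * j + c) / 4 = j := by omega
  have h2 : (4 * j + c) % 4 = c := by omega
  simp only [run, h1, h2]

lemma mass_total (i : ℕ) : ∑ j ∈ Finset.range (4 ^ i), th (run (Z 0) i j) = 2 ^ i := by
  induction i with
  | zero => simp [run, th]
  | succ i ih =>
    rw [sum_range_four]
    have : ∀ j ∈ Finset.range (4 ^ i), ∑ c ∈ Finset.range 4, th (run (Z 0) (i + 1) (4 * j + c)) =
        2 * th (run (Z 0) i j) := by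
      intro j _
      rw [← th_step]
      refine Finset.sum_congr rfl fun c hc => ?_
      rw [run_succ _ _ _ _ (Finset.mem_range.mp hc)]
    rw [Finset.sum_congr rfl this, ← Finset.mul_sum, ih]
    ring

/-- number of level `i` intervals in state `s`. -/
def cnt (i : ℕ) (s : St) : ℕ :=
  ∑ j ∈ Finset.range (4 ^ i), if run (Z 0) i j = s then 1 else 0

lemma cnt_zero_le (i : ℕ) : cnt i (Z 0) ≤ 2 ^ i := by
  rw [← mass_total i]
  unfold cnt
  refine Finset.sum_le_sum fun j _ => ?_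
  split_ifs with h
  · rw [h]; simp [th]
  · exact Nat.zero_le _

lemma cnt_Z_succ (i a : ℕ) : cnt (i + 1) (Z (a + 1)) = cnt i (Z a) := by
  unfold cnt
  rw [sum_range_four]
  refine Finset.sum_congr rfl fun j _ => ?_
  have : ∀ c ∈ Finset.range 4, (if run (Z 0) (i + 1) (4 * j + c) = Z (a + 1) then 1 else 0) =
      if step (run (Z 0) i j) c = Z (a + 1) then 1 else 0 := by
    intro c hc
    rw [run_succ _ _ _ _ (Finset.mem_range.mp hc)]
  rw [Finset.sum_congr rfl this]
  generalize run (Z 0) i j = s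
  rcases s with b | r | _
  · simp only [Finset.sum_range_succ, Finset.sum_range_zero, step]
    by_cases hb : b % 3 = 1 <;> by_cases hb' : b / 3 = 0 <;> simp [hb, hb']
  · rcases r with _ | r <;> simp [step]
  · simp [step]

lemma cnt_F_succ (i r : ℕ) :
    cnt (i + 1) (F r) = 4 * cnt i (F (r + 1)) + 3 * cnt i (Z (3 * (r + 1) + 1)) := by
  unfold cnt
  rw [sum_range_four, Finset.mul_sum, Finset.mul_sum, ← Finset.sum_add_distrib]
  refine Finset.sum_congr rfl fun j _ => ?_
  have : ∀ c ∈ Finset.range 4, (if run (Z 0) (i + 1) (4 * j + c) = F r then 1 else 0) =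
      if step (run (Z 0) i j) c = F r then 1 else 0 := by
    intro c hc
    rw [run_succ _ _ _ _ (Finset.mem_range.mp hc)]
  rw [Finset.sum_congr rfl this]
  generalize run (Z 0) i j = s
  rcases s with b | r' | _
  · simp only [Finset.sum_range_succ, Finset.sum_range_zero, step]
    by_cases hb : b % 3 = 1
    · by_cases hb' : b / 3 = 0
      · have : ¬ b = 3 * (r + 1) + 1 := by omega
        simp [hb, hb', this]
      · by_cases hbr : b = 3 * (r + 1) + 1
        · have h2 : b / 3 - 1 = r := by omega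
          have h3 : (3 * (r + 1) + 1) % 3 = 1 := by omega
          have h4 : (3 * (r + 1) + 1) / 3 = r + 1 := by omega
          subst hbr
          simp [h3, h4]
        · have h2 : ¬ b / 3 - 1 = r := by omega
          simp [hb, hb', h2, hbr]
    · have : ¬ b = 3 * (r + 1) + 1 := by omega
      simp [hb, this]
  · rcases r' with _ | r'
    · simp [step]
    · by_cases h : r' = r
      · simp [step, h]
      · simp [step, h]
  · simp [step]

lemma cnt_Z_le (i a : ℕ) : 2 ^ a * cnt i (Z a) ≤ 2 ^ i := by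
  induction a generalizing i with
  | zero => simpa using cnt_zero_le i
  | succ a ih =>
    rcases i with _ | i
    · have : cnt 0 (Z (a + 1)) = 0 := by simp [cnt, run]
      rw [this]; simp
    · rw [cnt_Z_succ, pow_succ, pow_succ]
      have := ih i
      nlinarith

lemma cnt_F_le (i r : ℕ) : 8 ^ (r + 1) * cnt i (F r) ≤ 2 ^ i := by
  induction i generalizing r with
  | zero =>
    have : cnt 0 (F r) = 0 := by simp [cnt, run]
    rw [this]; simp
  | succ i ih =>
    rw [cnt_F_succ]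
    have h1 := ih (r + 1)
    have h2 := cnt_Z_le i (3 * (r + 1) + 1)
    have e1 : (8 : ℕ) ^ (r + 1 + 1) = 8 * 8 ^ (r + 1) := by ring
    have e2 : (2 : ℕ) ^ (3 * (r + 1) + 1) = 2 * 8 ^ (r + 1) := by
      rw [pow_succ, pow_mul]; norm_num; ring
    rw [e1] at h1
    rw [e2] at h2
    rw [pow_succ 2 i]
    nlinarith

/-- size bound on the state after `i` digits. -/
def bd (i : ℕ) : St → Prop
  | Z a => a ≤ i
  | F r => r ≤ i
  | D => True

lemma bd_step (i : ℕ) (s : St) (c : ℕ) (h : bd i s) : bd (i + 1) (step s c) := by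
  rcases s with a | r | _
  · simp only [bd] at h
    simp only [step]
    split_ifs <;> simp only [bd] <;> omega
  · rcases r with _ | r
    · simp [step, bd]
    · simp only [bd] at h
      simp only [step, bd]; omega
  · simp [step, bd]

lemma bd_run (i j : ℕ) : bd i (run (Z 0) i j) := by
  induction i generalizing j with
  | zero => simp [run, bd]
  | succ i ih => exact bd_step i _ _ (ih _)

lemma th_sq_split (i : ℕ) (s : St) (h : bd i s) : ((th s : ℝ)) ^ 2 =
    ∑ a ∈ Finset.range (i + 1), (th (Z a) : ℝ) ^ 2 * (if s = Z a then 1 else 0) +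
    ∑ r ∈ Finset.range (i + 1), (th (F r) : ℝ) ^ 2 * (if s = F r then 1 else 0) := by
  rcases s with a | r | _
  · simp only [bd] at h
    simp only [St.Z.injEq, reduceCtorEq, if_false, mul_zero, Finset.sum_const_zero, add_zero]
    rw [Finset.sum_eq_single a]
    · simp
    · intro b _ hb; simp [Ne.symm hb]
    · intro hn; simp at hn; omega
  · simp only [bd] at h
    simp only [St.F.injEq, reduceCtorEq, if_false, mul_zero, Finset.sum_const_zero, zero_add]
    rw [Finset.sum_eq_single r]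
    · simp
    · intro b _ hb; simp [Ne.symm hb]
    · intro hn; simp at hn; omega
  · simp [th]

lemma cnt_cast (i : ℕ) (s : St) : (cnt i s : ℝ) =
    ∑ j ∈ Finset.range (4 ^ i), if run (Z 0) i j = s then (1 : ℝ) else 0 := by
  unfold cnt; push_cast; rfl

lemma sum_Z_le (n : ℕ) : ∑ a ∈ Finset.range (3 * n), (th (Z a) : ℝ) ^ 2 / 2 ^ a ≤
    13 / 2 - 13 / 2 * (1 / 2) ^ n := by
  induction n with
  | zero => simp
  | succ n ih =>
    have h0 : (3 * n) % 3 = 0 := by omega
    have h1 : (3 * n + 1) % 3 = 1 := by omega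
    have h2 : (3 * n + 2) % 3 = 2 := by omega
    have k0 : (3 * n) / 3 = n := by omega
    have k1 : (3 * n + 1) / 3 = n := by omega
    have k2 : (3 * n + 2) / 3 = n := by omega
    rw [show 3 * (n + 1) = 3 * n + 1 + 1 + 1 by ring, Finset.sum_range_succ,
      Finset.sum_range_succ, Finset.sum_range_succ]
    have e0 : (th (Z (3 * n)) : ℝ) ^ 2 / 2 ^ (3 * n) = (1 / 2) ^ n := by
      simp only [th, h0, k0]
      rw [div_eq_iff (by positivity), pow_mul, ← mul_pow]
      norm_num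
      rw [← pow_mul, mul_comm, pow_mul]; norm_num
    have e1 : (th (Z (3 * n + 1)) : ℝ) ^ 2 / 2 ^ (3 * n + 1) = 2 * (1 / 2) ^ n := by
      have q : th (Z (3 * n + 1)) = 2 ^ (n + 1) := by simp [th, h1, k1]
      rw [q, div_eq_iff (by positivity), pow_succ (2 : ℝ) (3 * n), pow_mul]
      have : (2 : ℝ) * (1 / 2) ^ n * ((2 ^ 3) ^ n * 2) = 4 * ((1 / 2) * 2 ^ 3) ^ n := by
        rw [mul_pow]; ring
      rw [this]
      push_cast
      rw [← pow_mul, show (n + 1) * 2 = 2 * n + 2 by ring, pow_add, pow_mul]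
      norm_num; ring
    have e2 : (th (Z (3 * n + 1 + 1)) : ℝ) ^ 2 / 2 ^ (3 * n + 1 + 1) = (1 / 4) * (1 / 2) ^ n := by
      have q : th (Z (3 * n + 1 + 1)) = 2 ^ n := by simp [th, h2, k2]
      rw [q, div_eq_iff (by positivity), show 3 * n + 1 + 1 = 3 * n + 2 by ring,
        pow_add (2 : ℝ) (3 * n), pow_mul]
      have : (1 / 4 : ℝ) * (1 / 2) ^ n * ((2 ^ 3) ^ n * 2 ^ 2) = ((1 / 2) * 2 ^ 3) ^ n := by
        rw [mul_pow]; ring
      rw [this]
      push_cast
      rw [← pow_mul, mul_comm, pow_mul]; norm_num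
    rw [e0, e1, e2, pow_succ]
    linarith

lemma sum_F_le (n : ℕ) : ∑ r ∈ Finset.range n, (th (F r) : ℝ) ^ 2 / 8 ^ (r + 1) ≤
    1 - (1 / 2) ^ n := by
  induction n with
  | zero => simp
  | succ n ih =>
    rw [Finset.sum_range_succ]
    have e : (th (F n) : ℝ) ^ 2 / 8 ^ (n + 1) = (1 / 2) ^ (n + 1) := by
      simp only [th]
      rw [div_eq_iff (by positivity), ← mul_pow]
      norm_num
      rw [← pow_mul, mul_comm, pow_mul]; norm_num
    rw [e, pow_succ]
    rw [pow_succ] at *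
    linarith

/-- the energy bound. -/
lemma energy (i : ℕ) : ∑ j ∈ Finset.range (4 ^ i), (th (run (Z 0) i j) : ℝ) ^ 2 ≤ 8 * 2 ^ i := by
  have h1 : ∑ j ∈ Finset.range (4 ^ i), (th (run (Z 0) i j) : ℝ) ^ 2 =
      ∑ a ∈ Finset.range (i + 1), (th (Z a) : ℝ) ^ 2 * cnt i (Z a) +
      ∑ r ∈ Finset.range (i + 1), (th (F r) : ℝ) ^ 2 * cnt i (F r) := by
    simp only [cnt_cast, Finset.mul_sum]
    rw [Finset.sum_comm (s := Finset.range (i + 1)), Finset.sum_comm (s := Finset.range (i + 1)),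
      ← Finset.sum_add_distrib]
    refine Finset.sum_congr rfl fun j _ => ?_
    exact th_sq_split i _ (bd_run i j)
  have h2 : ∑ a ∈ Finset.range (i + 1), (th (Z a) : ℝ) ^ 2 * cnt i (Z a) ≤
      ∑ a ∈ Finset.range (3 * (i + 1)), ((th (Z a) : ℝ) ^ 2 / 2 ^ a) * 2 ^ i := by
    refine le_trans (Finset.sum_le_sum fun a _ => ?_)
      (Finset.sum_le_sum_of_subset_of_nonneg (Finset.range_mono (by omega))
        fun _ _ _ => by positivity)
    have h := cnt_Z_le i a
    have h' : (2 : ℝ) ^ a * cnt i (Z a) ≤ 2 ^ i := by exact_mod_cast h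
    rw [div_mul_eq_mul_div, mul_div_assoc]
    refine mul_le_mul_of_nonneg_left ?_ (by positivity)
    rw [le_div_iff₀ (by positivity)]
    linarith
  have h3 : ∑ r ∈ Finset.range (i + 1), (th (F r) : ℝ) ^ 2 * cnt i (F r) ≤
      ∑ r ∈ Finset.range (i + 1), ((th (F r) : ℝ) ^ 2 / 8 ^ (r + 1)) * 2 ^ i := by
    refine Finset.sum_le_sum fun r _ => ?_
    have h := cnt_F_le i r
    have h' : (8 : ℝ) ^ (r + 1) * cnt i (F r) ≤ 2 ^ i := by exact_mod_cast h
    rw [div_mul_eq_mul_div, mul_div_assoc]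
    refine mul_le_mul_of_nonneg_left ?_ (by positivity)
    rw [le_div_iff₀ (by positivity)]
    linarith
  rw [← Finset.sum_mul] at h2 h3
  have h4 := sum_Z_le (i + 1)
  have h5 := sum_F_le (i + 1)
  have h6 : (0 : ℝ) ≤ (1 / 2) ^ (i + 1) := by positivity
  have h7 : (0 : ℝ) < 2 ^ i := by positivity
  rw [h1]
  nlinarith [h2, h3, h4, h5, h6, h7]

/-! ### The level sets and their coverings -/

/-- union of the active closed intervals of level `i` started from state `s`. -/
def KL (s : St) (i : ℕ) : Set ℝ :=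
  {x | ∃ j : ℕ, j < 4 ^ i ∧ run s i j ≠ D ∧ (j : ℝ) / 4 ^ i ≤ x ∧ x ≤ ((j : ℝ) + 1) / 4 ^ i}

/-- `A` is covered by finitely many intervals with sum of square roots of lengths at most `c`. -/
def Cov (A : Set ℝ) (c : ℝ) : Prop :=
  ∃ L : List (ℝ × ℝ), (∀ p ∈ L, 0 ≤ p.2) ∧ (∀ x ∈ A, ∃ p ∈ L, p.1 ≤ x ∧ x ≤ p.1 + p.2) ∧
    (L.map (fun p => Real.sqrt p.2)).sum ≤ c

lemma Cov.mono {A B : Set ℝ} {c c' : ℝ} (h : Cov A c) (hBA : B ⊆ A) (hc : c ≤ c') :
    Cov B c' := by
  obtain ⟨L, h1, h2, h3⟩ := h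
  exact ⟨L, h1, fun x hx => h2 x (hBA hx), h3.trans hc⟩

lemma Cov.union {A B : Set ℝ} {c c' : ℝ} (h : Cov A c) (h' : Cov B c') :
    Cov (A ∪ B) (c + c') := by
  obtain ⟨L, h1, h2, h3⟩ := h
  obtain ⟨L', h1', h2', h3'⟩ := h'
  refine ⟨L ++ L', fun p hp => ?_, fun x hx => ?_, ?_⟩
  · rcases List.mem_append.mp hp with hp | hp
    · exact h1 p hp
    · exact h1' p hp
  · rcases hx with hx | hx
    · obtain ⟨p, hp, hpx⟩ := h2 x hx
      exact ⟨p, List.mem_append.mpr (Or.inl hp), hpx⟩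
    · obtain ⟨p, hp, hpx⟩ := h2' x hx
      exact ⟨p, List.mem_append.mpr (Or.inr hp), hpx⟩
  · rw [List.map_append, List.sum_append]
    exact add_le_add h3 h3'

lemma Cov.scale {A : Set ℝ} {c : ℝ} (h : Cov A c) (a : ℝ) :
    Cov {x | 4 * x - a ∈ A} (c / 2) := by
  obtain ⟨L, h1, h2, h3⟩ := h
  refine ⟨L.map (fun p => ((p.1 + a) / 4, p.2 / 4)), fun p hp => ?_, fun x hx => ?_, ?_⟩
  · obtain ⟨q, hq, rfl⟩ := List.mem_map.mp hp
    have := h1 q hq
    simp only
    linarith
  · obtain ⟨p, hp, hp1, hp2⟩ := h2 _ hx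
    refine ⟨_, List.mem_map.mpr ⟨p, hp, rfl⟩, ?_, ?_⟩
    · simp only; linarith
    · simp only; linarith
  · rw [List.map_map]
    have : (fun p : ℝ × ℝ => Real.sqrt p.2) ∘ (fun p : ℝ × ℝ => ((p.1 + a) / 4, p.2 / 4)) =
        fun p => (1 / 2) * Real.sqrt p.2 := by
      funext p
      simp only [Function.comp]
      rw [Real.sqrt_div' _ (by norm_num), show (4 : ℝ) = 2 ^ 2 by norm_num, Real.sqrt_sq (by norm_num)]
      ring
    rw [this, List.sum_map_mul_left]
    linarith

lemma Cov.empty : Cov ∅ 0 := ⟨[], by simp, by simp, by simp⟩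

lemma run_D (i j : ℕ) : run D i j = D := by
  induction i generalizing j with
  | zero => rfl
  | succ i ih => simp [run, ih, step]

lemma run_first (s : St) (i j : ℕ) :
    run s (i + 1) j = run (step s (j / 4 ^ i % 4)) i (j % 4 ^ i) := by
  induction i generalizing j with
  | zero => simp [run]
  | succ i ih =>
    have e1 : j / 4 / 4 ^ i = j / 4 ^ (i + 1) := by
      rw [Nat.div_div_eq_div_mul, pow_succ, mul_comm]
    have e2 : (j % 4 ^ (i + 1)) / 4 = (j / 4) % 4 ^ i := by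
      rw [pow_succ, mul_comm, Nat.mod_mul_right_div_self]
    have e3 : (j % 4 ^ (i + 1)) % 4 = j % 4 := by
      apply Nat.mod_mod_of_dvd
      exact dvd_pow_self 4 (by omega)
    rw [run, ih, e1, run, e2, e3]

lemma KL_D (i : ℕ) : KL D i = ∅ := by
  ext x
  simp [KL, run_D]

lemma KL_succ_subset (s : St) (i : ℕ) :
    KL s (i + 1) ⊆ ⋃ c ∈ Finset.range 4, {x : ℝ | 4 * x - (c : ℝ) ∈ KL (step s c) i} := by
  rintro x ⟨j, hj, hrun, hx1, hx2⟩
  have hpos : 0 < 4 ^ i := by positivity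
  have hc : j / 4 ^ i < 4 := by
    rw [Nat.div_lt_iff_lt_mul hpos]
    calc j < 4 ^ (i + 1) := hj
      _ = 4 * 4 ^ i := by ring
  rw [run_first, Nat.mod_eq_of_lt hc] at hrun
  simp only [Set.mem_iUnion, Finset.mem_range]
  refine ⟨j / 4 ^ i, hc, j % 4 ^ i, Nat.mod_lt _ hpos, hrun, ?_, ?_⟩
  · have h := Nat.div_add_mod j (4 ^ i)
    have h' : (4 : ℝ) ^ i * ((j / 4 ^ i : ℕ) : ℝ) + ((j % 4 ^ i : ℕ) : ℝ) = j := by
      exact_mod_cast h
    have hp : (0 : ℝ) < 4 ^ i := by positivity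
    rw [div_le_iff₀ hp]
    rw [div_le_iff₀ (by positivity), pow_succ] at hx1
    nlinarith
  · have h := Nat.div_add_mod j (4 ^ i)
    have h' : (4 : ℝ) ^ i * ((j / 4 ^ i : ℕ) : ℝ) + ((j % 4 ^ i : ℕ) : ℝ) = j := by
      exact_mod_cast h
    have hp : (0 : ℝ) < 4 ^ i := by positivity
    rw [le_div_iff₀ hp]
    rw [le_div_iff₀ (by positivity), pow_succ] at hx2
    nlinarith

lemma KL_anti_succ (s : St) (i : ℕ) : KL s (i + 1) ⊆ KL s i := by
  rintro x ⟨j, hj, hrun, hx1, hx2⟩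
  refine ⟨j / 4, ?_, ?_, ?_, ?_⟩
  · rw [Nat.div_lt_iff_lt_mul (by norm_num), ← pow_succ]; exact hj
  · intro h
    apply hrun
    rw [run, h]
    rfl
  · refine le_trans ?_ hx1
    rw [div_le_div_iff₀ (by positivity) (by positivity), pow_succ]
    have : (4 : ℝ) * ((j / 4 : ℕ) : ℝ) ≤ j := by
      have := Nat.mul_div_le j 4
      exact_mod_cast this
    have hp : (0 : ℝ) < 4 ^ i := by positivity
    nlinarith
  · refine le_trans hx2 ?_
    rw [div_le_div_iff₀ (by positivity) (by positivity), pow_succ]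
    have : (j : ℝ) + 1 ≤ 4 * (((j / 4 : ℕ) : ℝ) + 1) := by
      have : j + 1 ≤ 4 * (j / 4 + 1) := by omega
      exact_mod_cast this
    have hp : (0 : ℝ) < 4 ^ i := by positivity
    nlinarith

lemma KL_anti (s : St) : Antitone (KL s) := antitone_nat_of_succ_le (KL_anti_succ s)

/-- infimum of covering costs. -/
noncomputable def hh (s : St) : ℝ := sInf {c : ℝ | 0 ≤ c ∧ ∃ i, Cov (KL s i) c}

lemma hh_set_one (s : St) : (1 : ℝ) ∈ {c : ℝ | 0 ≤ c ∧ ∃ i, Cov (KL s i) c} := by
  refine ⟨zero_le_one, 0, [(0, 1)], by simp, ?_, by simp⟩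
  rintro x ⟨j, hj, -, hx1, hx2⟩
  have : j = 0 := by simpa using hj
  subst this
  refine ⟨(0, 1), by simp, ?_, ?_⟩
  · simpa using hx1
  · simpa using hx2

lemma hh_bdd (s : St) : BddBelow {c : ℝ | 0 ≤ c ∧ ∃ i, Cov (KL s i) c} := ⟨0, fun _ h => h.1⟩

lemma hh_nonneg (s : St) : 0 ≤ hh s := Real.sInf_nonneg fun _ h => h.1

lemma hh_le_one (s : St) : hh s ≤ 1 := csInf_le (hh_bdd s) (hh_set_one s)

lemma hh_D : hh D = 0 := by
  apply le_antisymm _ (hh_nonneg D)
  refine csInf_le (hh_bdd D) ⟨le_refl 0, 0, ?_⟩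
  rw [KL_D]; exact Cov.empty

lemma hh_step (s : St) : hh s ≤ (1 / 2) * ∑ c ∈ Finset.range 4, hh (step s c) := by
  apply le_of_forall_pos_le_add
  intro ε hε
  have h : ∀ c : ℕ, ∃ i, Cov (KL (step s c) i) (hh (step s c) + ε / 2) := by
    intro c
    obtain ⟨c', ⟨-, i, hi⟩, hlt⟩ := exists_lt_of_csInf_lt ⟨1, hh_set_one (step s c)⟩
      (show sInf _ < hh (step s c) + ε / 2 from lt_add_of_pos_right _ (by positivity))
    exact ⟨i, hi.mono subset_rfl hlt.le⟩
  choose i hi using h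
  set I := (i 0 + i 1 + i 2 + i 3) with hI
  have hcov : ∀ c < 4, Cov {x : ℝ | 4 * x - (c : ℝ) ∈ KL (step s c) I}
      ((hh (step s c) + ε / 2) / 2) := by
    intro c hc
    have hle : i c ≤ I := by interval_cases c <;> omega
    exact ((hi c).mono (KL_anti _ hle) le_rfl).scale c
  have hsub := KL_succ_subset s I
  have hfin : Cov (KL s (I + 1)) ((hh (step s 0) + ε / 2) / 2 + (hh (step s 1) + ε / 2) / 2 +
      (hh (step s 2) + ε / 2) / 2 + (hh (step s 3) + ε / 2) / 2) := by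
    refine (((((hcov 0 (by norm_num)).union (hcov 1 (by norm_num))).union
      (hcov 2 (by norm_num))).union (hcov 3 (by norm_num)))).mono ?_ le_rfl
    intro x hx
    have := hsub hx
    simp only [Set.mem_iUnion, Finset.mem_range] at this
    obtain ⟨c, hc, hx⟩ := this
    interval_cases c
    · left; left; left; exact hx
    · left; left; right; exact hx
    · left; right; exact hx
    · right; exact hx
  have h0 : ∀ c, 0 ≤ hh (step s c) := fun c => hh_nonneg _
  refine (csInf_le (hh_bdd s) ⟨?_, I + 1, hfin⟩).trans ?_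
  · have := h0 0; have := h0 1; have := h0 2; have := h0 3
    positivity
  · simp only [Finset.sum_range_succ, Finset.sum_range_zero]
    linarith

lemma hh_Z_conc (a : ℕ) (ha : a % 3 ≠ 1) : hh (Z a) ≤ (1 / 2) * hh (Z (a + 1)) := by
  have := hh_step (Z a)
  simpa [Finset.sum_range_succ, step, ha, hh_D] using this

lemma hh_F (r : ℕ) : hh (F r) ≤ 2 ^ (r + 1) * hh (Z 0) := by
  induction r with
  | zero =>
    have := hh_step (F 0)
    simp only [Finset.sum_range_succ, step, Finset.sum_range_zero] at this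
    norm_num
    linarith
  | succ r ih =>
    have := hh_step (F (r + 1))
    simp only [Finset.sum_range_succ, step, Finset.sum_range_zero] at this
    rw [pow_succ]
    linarith

lemma hh_Z_rec (t : ℕ) : hh (Z (3 * t)) ≤ (1 / 8) * hh (Z (3 * (t + 1))) +
    (3 / 4) * 2 ^ t * hh (Z 0) := by
  have h1 := hh_Z_conc (3 * t) (by omega)
  have h2 := hh_step (Z (3 * t + 1))
  have h3 := hh_Z_conc (3 * t + 2) (by omega)
  have k1 : (3 * t + 1) % 3 = 1 := by omega
  have k2 : (3 * t + 1) / 3 = t := by omega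
  have h4 : ∀ c, c ≠ 0 → hh (step (Z (3 * t + 1)) c) ≤ 2 ^ t * hh (Z 0) := by
    intro c hc
    rcases t with _ | t
    · simp [step, hc]
    · simp only [step, hc, k1, k2, if_false, if_true]
      simpa using hh_F t
  have e1 := h4 1 (by norm_num)
  have e2 := h4 2 (by norm_num)
  have e3 := h4 3 (by norm_num)
  rw [Finset.sum_range_succ, Finset.sum_range_succ, Finset.sum_range_succ, Finset.sum_range_one,
    step_Z_zero] at h2
  rw [show 3 * (t + 1) = 3 * t + 2 + 1 by ring]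
  linarith

lemma hh_zero : hh (Z 0) = 0 := by
  have key : ∀ t : ℕ, hh (Z 0) ≤ hh (Z (3 * t)) / 2 ^ t := by
    intro t
    induction t with
    | zero => simp
    | succ t ih =>
      have h := hh_Z_rec t
      have hp : (0 : ℝ) < 2 ^ t := by positivity
      rw [le_div_iff₀ (by positivity)] at ih ⊢
      rw [pow_succ]
      nlinarith
  apply le_antisymm _ (hh_nonneg _)
  apply le_of_forall_pos_le_add
  intro ε hε
  obtain ⟨t, ht⟩ := exists_pow_lt_of_lt_one hε (by norm_num : (1 / 2 : ℝ) < 1)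
  have h1 := key t
  have h2 := hh_le_one (Z (3 * t))
  have h3 : hh (Z (3 * t)) / 2 ^ t ≤ (1 / 2) ^ t := by
    rw [div_le_iff₀ (by positivity), ← mul_pow]; norm_num; exact h2
  linarith

lemma cov_small (ε : ℝ) (hε : 0 < ε) : ∃ i, Cov (KL (Z 0) i) ε := by
  obtain ⟨c', ⟨-, i, hi⟩, hlt⟩ := exists_lt_of_csInf_lt ⟨1, hh_set_one (Z 0)⟩
    (show sInf _ < ε from lt_of_eq_of_lt hh_zero hε)
  exact ⟨i, hi.mono subset_rfl hlt.le⟩

/-- The compact set. -/
def K : Set ℝ := ⋂ i, KL (Z 0) i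

lemma KL_compact (s : St) (i : ℕ) : IsCompact (KL s i) := by
  have h : KL s i = ⋃ j ∈ {j : ℕ | j < 4 ^ i ∧ run s i j ≠ D},
      Set.Icc ((j : ℝ) / 4 ^ i) (((j : ℝ) + 1) / 4 ^ i) := by
    ext x
    simp only [KL, Set.mem_ofPred_eq, Set.mem_iUnion, Set.mem_Icc, exists_prop]
    constructor
    · rintro ⟨j, h1, h2, h3⟩; exact ⟨j, ⟨h1, h2⟩, h3⟩
    · rintro ⟨j, ⟨h1, h2⟩, h3⟩; exact ⟨j, h1, h2, h3⟩
  rw [h]
  have hfin : {j : ℕ | j < 4 ^ i ∧ run s i j ≠ D}.Finite :=
    (Set.finite_lt_nat (4 ^ i)).subset fun j hj => hj.1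
  exact hfin.isCompact_biUnion fun j _ => isCompact_Icc

lemma K_compact : IsCompact K :=
  (KL_compact (Z 0) 0).of_isClosed_subset (isClosed_iInter fun i => (KL_compact (Z 0) i).isClosed)
    (Set.iInter_subset _ 0)

lemma K_hausdorff : μH[(1 / 2 : ℝ)] K = 0 := by
  have hcov : ∀ n : ℕ, Cov K (1 / ((n : ℝ) + 1)) := by
    intro n
    obtain ⟨i, hi⟩ := cov_small (1 / ((n : ℝ) + 1)) (by positivity)
    exact hi.mono (Set.iInter_subset _ i) le_rfl
  choose L hL1 hL2 hL3 using hcov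
  have hsmall : ∀ n (k : Fin (L n).length), Real.sqrt ((L n).get k).2 ≤ 1 / ((n : ℝ) + 1) := by
    intro n k
    refine le_trans ?_ (hL3 n)
    refine List.single_le_sum ?_ _ (List.mem_map.mpr ⟨(L n).get k, List.get_mem _ _, rfl⟩)
    intro x hx
    obtain ⟨p, -, rfl⟩ := List.mem_map.mp hx
    exact Real.sqrt_nonneg _
  have h := Measure.hausdorffMeasure_le_liminf_sum (ι := fun n => Fin (L n).length) (1 / 2 : ℝ) K
    (l := atTop) (fun n : ℕ => ENNReal.ofReal ((1 / ((n : ℝ) + 1)) ^ 2)) ?_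
    (fun n k => Set.Icc ((L n).get k).1 (((L n).get k).1 + ((L n).get k).2)) ?_ ?_
  · refine le_antisymm (h.trans ?_) bot_le
    have h2 : ∀ n : ℕ, ∑ k : Fin (L n).length, Metric.ediam
        (Set.Icc ((L n).get k).1 (((L n).get k).1 + ((L n).get k).2)) ^ (1 / 2 : ℝ) ≤
        ENNReal.ofReal (1 / ((n : ℝ) + 1)) := by
      intro n
      have h3 : ∀ k : Fin (L n).length, Metric.ediam
        (Set.Icc ((L n).get k).1 (((L n).get k).1 + ((L n).get k).2)) ^ (1 / 2 : ℝ) =
          ENNReal.ofReal (Real.sqrt ((L n).get k).2) := by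
        intro k
        rw [Real.ediam_Icc, add_sub_cancel_left, Real.sqrt_eq_rpow,
          ENNReal.ofReal_rpow_of_nonneg (hL1 n _ (List.get_mem _ _)) (by norm_num)]
      simp only [h3]
      rw [← ENNReal.ofReal_sum_of_nonneg (fun _ _ => Real.sqrt_nonneg _)]
      apply ENNReal.ofReal_le_ofReal
      refine le_trans (le_of_eq ?_) (hL3 n)
      rw [← List.sum_ofFn]
      congr 1
      apply List.ext_get
      · simp
      · intro k h1 h2; simp
    refine (liminf_le_liminf (Eventually.of_forall h2)).trans ?_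
    have h4 : Tendsto (fun n : ℕ => ENNReal.ofReal (1 / ((n : ℝ) + 1))) atTop (𝓝 0) := by
      rw [← ENNReal.ofReal_zero]
      exact (ENNReal.continuous_ofReal.tendsto 0).comp tendsto_one_div_add_atTop_nhds_zero_nat
    rw [h4.liminf_eq]
  · have h4 : Tendsto (fun n : ℕ => (1 / ((n : ℝ) + 1)) ^ 2) atTop (𝓝 0) := by
      have := (tendsto_one_div_add_atTop_nhds_zero_nat (𝕜 := ℝ)).pow 2
      simpa using this
    rw [← ENNReal.ofReal_zero]
    exact (ENNReal.continuous_ofReal.tendsto 0).comp h4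
  · refine Eventually.of_forall fun n k => ?_
    rw [Real.ediam_Icc, add_sub_cancel_left]
    apply ENNReal.ofReal_le_ofReal
    have h1 := hsmall n k
    have h2 := hL1 n _ (List.get_mem (L n) k)
    calc ((L n).get k).2 = Real.sqrt ((L n).get k).2 ^ 2 := (Real.sq_sqrt h2).symm
      _ ≤ (1 / ((n : ℝ) + 1)) ^ 2 := by gcongr
  · refine Eventually.of_forall fun n x hx => ?_
    obtain ⟨p, hp, hpx⟩ := hL2 n x hx
    obtain ⟨k, hk⟩ := List.get_of_mem hp
    refine Set.mem_iUnion.mpr ⟨k, ?_⟩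
    rw [hk]; exact hpx

/-! ### Analysis on the line -/

/-- `L²` modulus of continuity. -/
noncomputable def om (u : ℝ → ℝ) (h : ℝ) : ℝ≥0∞ := eLpNorm (fun x => u (x + h) - u x) 2 volume

noncomputable def omr (u : ℝ → ℝ) (h : ℝ) : ℝ := Real.sqrt (∫ x, (u (x + h) - u x) ^ 2)

section analysis

variable {u : ℝ → ℝ}

lemma diff_compact (hc : HasCompactSupport u) (h : ℝ) :
    HasCompactSupport (fun x => u (x + h) - u x) := by
  have h1 : HasCompactSupport (fun x => u (x + h)) := hc.comp_homeomorph (Homeomorph.addRight h)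
  exact h1.sub hc

lemma diff_cont (hu : Continuous u) (h : ℝ) : Continuous (fun x => u (x + h) - u x) :=
  (hu.comp (continuous_id.add continuous_const)).sub hu

lemma eLpNorm_two_eq {g : ℝ → ℝ} (hg : Continuous g) (hc : HasCompactSupport g) :
    eLpNorm g 2 volume = ENNReal.ofReal (Real.sqrt (∫ x, g x ^ 2)) := by
  have hm : MemLp g 2 volume := hg.memLp_of_hasCompactSupport hc
  rw [hm.eLpNorm_eq_integral_rpow_norm (by norm_num) (by norm_num)]
  congr 1
  rw [Real.sqrt_eq_rpow]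
  norm_num

lemma om_eq (hu : Continuous u) (hc : HasCompactSupport u) (h : ℝ) :
    om u h = ENNReal.ofReal (omr u h) :=
  eLpNorm_two_eq (diff_cont hu h) (diff_compact hc h)

lemma om_add (hu : Continuous u) (h k : ℝ) : om u h ≤ om u (h + k) + om u k := by
  -- translate by `k`
  have e1 : om u h = eLpNorm (fun x => u (x + k + h) - u (x + k)) 2 volume := by
    have := eLpNorm_comp_measurePreserving (p := 2) (μ := (volume : Measure ℝ))
      (g := fun x => u (x + h) - u x)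
      (diff_cont hu h).aestronglyMeasurable (measurePreserving_add_right volume k)
    unfold om
    rw [← this]
    rfl
  rw [e1]
  have e2 : (fun x => u (x + k + h) - u (x + k)) =
      (fun x => u (x + (h + k)) - u x) - (fun x => u (x + k) - u x) := by
    funext x
    simp only [Pi.sub_apply]
    rw [show x + (h + k) = x + k + h by ring]
    ring
  rw [e2]
  exact eLpNorm_sub_le (diff_cont hu _).aestronglyMeasurable
    (diff_cont hu _).aestronglyMeasurable (by norm_num)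

lemma om_meas (hu : Continuous u) : Measurable (om u) := by
  have h1 : om u = fun h => (∫⁻ x, ‖u (x + h) - u x‖ₑ ^ (2 : ℝ)) ^ (1 / (2 : ℝ)) := by
    funext h
    unfold om
    rw [eLpNorm_eq_lintegral_rpow_enorm_toReal (by norm_num) (by norm_num)]
    norm_num
  rw [h1]
  refine Measurable.pow_const ?_ _
  refine Measurable.lintegral_prod_right' (f := fun p : ℝ × ℝ => ‖u (p.2 + p.1) - u p.2‖ₑ ^ (2 : ℝ)) ?_
  refine Measurable.pow_const ?_ _
  refine Measurable.enorm ?_
  exact ((hu.comp (continuous_snd.add continuous_fst)).sub (hu.comp continuous_snd)).measurable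

/-- `ω(h) ≤ (2/δ) ∫_{(δ, 4δ]} ω` for `|h| ≤ δ`. -/
lemma om_avg (hu : Continuous u) {δ h : ℝ} (hδ : 0 < δ) (hh : |h| ≤ δ) :
    ENNReal.ofReal δ * om u h ≤ 2 * ∫⁻ k in Set.Ioc δ (4 * δ), om u k := by
  have habs := abs_le.mp hh
  have h1 : ENNReal.ofReal δ * om u h = ∫⁻ _k in Set.Ioc (2 * δ) (3 * δ), om u h := by
    rw [setLIntegral_const, Real.volume_Ioc, mul_comm]
    congr 2; ring
  have h2 : ∫⁻ _k in Set.Ioc (2 * δ) (3 * δ), om u h ≤
      ∫⁻ k in Set.Ioc (2 * δ) (3 * δ), (om u (h + k) + om u k) :=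
    lintegral_mono fun k => om_add hu h k
  have h3 : ∫⁻ k in Set.Ioc (2 * δ) (3 * δ), (om u (h + k) + om u k) =
      (∫⁻ k in Set.Ioc (2 * δ) (3 * δ), om u (h + k)) +
        ∫⁻ k in Set.Ioc (2 * δ) (3 * δ), om u k :=
    lintegral_add_right _ (om_meas hu)
  have h4 : ∫⁻ k in Set.Ioc (2 * δ) (3 * δ), om u (h + k) ≤
      ∫⁻ k in Set.Ioc δ (4 * δ), om u k := by
    have e : ∫⁻ k in Set.Ioc (2 * δ) (3 * δ), om u (h + k) =
        ∫⁻ k, (Set.Ioc (2 * δ) (3 * δ)).indicator (fun k => om u (h + k)) k :=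
      (lintegral_indicator measurableSet_Ioc _).symm
    have e' : ∫⁻ k in Set.Ioc δ (4 * δ), om u k =
        ∫⁻ k, (Set.Ioc δ (4 * δ)).indicator (om u) k :=
      (lintegral_indicator measurableSet_Ioc _).symm
    rw [e, e', ← lintegral_add_left_eq_self (fun k => (Set.Ioc δ (4 * δ)).indicator (om u) k) h]
    refine lintegral_mono fun k => ?_
    by_cases hk : k ∈ Set.Ioc (2 * δ) (3 * δ)
    · have hk' : h + k ∈ Set.Ioc δ (4 * δ) := ⟨by linarith [hk.1], by linarith [hk.2]⟩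
      rw [Set.indicator_of_mem hk, Set.indicator_of_mem hk']
    · rw [Set.indicator_of_notMem hk]; exact bot_le
  have h5 : ∫⁻ k in Set.Ioc (2 * δ) (3 * δ), om u k ≤ ∫⁻ k in Set.Ioc δ (4 * δ), om u k :=
    lintegral_mono_set (Set.Ioc_subset_Ioc (by linarith) (by linarith))
  rw [h1, two_mul (∫⁻ k in Set.Ioc δ (4 * δ), om u k)]
  exact h2.trans (h3.le.trans (add_le_add h4 h5))

/-- integral over the `m`-th interval of level `i`. -/
noncomputable def av (u : ℝ → ℝ) (i m : ℕ) : ℝ :=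
  ∫ x in ((m : ℝ) / 4 ^ i)..(((m : ℝ) + 1) / 4 ^ i), u x

lemma av_split (hu : Continuous u) (i j : ℕ) :
    av u i j = ∑ c ∈ Finset.range 4, av u (i + 1) (4 * j + c) := by
  have hp : (0 : ℝ) < 4 ^ i := by positivity
  have hint : ∀ a b : ℝ, IntervalIntegrable u volume a b := fun a b => hu.intervalIntegrable a b
  have h := intervalIntegral.sum_integral_adjacent_intervals (f := u) (μ := volume)
    (a := fun c : ℕ => ((4 * (j : ℝ) + c) / 4 ^ (i + 1))) (n := 4) (fun _ _ => hint _ _)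
  unfold av
  have e0 : ((4 * (j : ℝ) + (0 : ℕ)) / 4 ^ (i + 1)) = (j : ℝ) / 4 ^ i := by
    rw [pow_succ]; push_cast; field_simp; try ring
  have e4 : ((4 * (j : ℝ) + (4 : ℕ)) / 4 ^ (i + 1)) = ((j : ℝ) + 1) / 4 ^ i := by
    rw [pow_succ]; push_cast; field_simp; try ring
  rw [e0, e4] at h
  rw [← h]
  refine Finset.sum_congr rfl fun c _ => ?_
  congr 1
  · push_cast; ring
  · push_cast; ring

lemma sum_range_four_real (i : ℕ) (f : ℕ → ℝ) :
    ∑ m ∈ Finset.range (4 ^ (i + 1)), f m =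
      ∑ j ∈ Finset.range (4 ^ i), ∑ c ∈ Finset.range 4, f (4 * j + c) := by
  rw [pow_succ, mul_comm]
  generalize 4 ^ i = n
  induction n with
  | zero => simp
  | succ n ih => rw [Finset.sum_range_succ, ← ih, Nat.mul_succ, Finset.sum_range_add]

lemma av_total (hu : Continuous u) (i : ℕ) :
    ∑ m ∈ Finset.range (4 ^ i), av u i m = ∫ x in (0 : ℝ)..1, u x := by
  induction i with
  | zero => simp [av]
  | succ i ih =>
    rw [sum_range_four_real, ← ih]
    refine Finset.sum_congr rfl fun j _ => ?_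
    rw [av_split hu]

lemma cauchy_interval {g : ℝ → ℝ} (hg : Continuous g) {a b : ℝ} (hab : a < b) :
    (∫ x in a..b, g x) ^ 2 ≤ (b - a) * ∫ x in a..b, g x ^ 2 := by
  set G := ∫ x in a..b, g x with hG
  have hL : 0 < b - a := by linarith
  have h0 : 0 ≤ ∫ x in a..b, (g x - G / (b - a)) ^ 2 :=
    intervalIntegral.integral_nonneg hab.le fun x _ => sq_nonneg _
  have h1 : ∫ x in a..b, (g x - G / (b - a)) ^ 2 =
      (∫ x in a..b, g x ^ 2) - 2 * (G / (b - a)) * G + (b - a) * (G / (b - a)) ^ 2 := by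
    have e : (fun x => (g x - G / (b - a)) ^ 2) =
        fun x => (g x ^ 2 - 2 * (G / (b - a)) * g x) + (G / (b - a)) ^ 2 := by
      funext x; ring
    rw [e, intervalIntegral.integral_add, intervalIntegral.integral_sub,
      intervalIntegral.integral_const_mul, intervalIntegral.integral_const, smul_eq_mul]
    · exact (hg.pow 2).intervalIntegrable _ _
    · exact (continuous_const.mul hg).intervalIntegrable _ _
    · exact ((hg.pow 2).sub (continuous_const.mul hg)).intervalIntegrable _ _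
    · exact continuous_const.intervalIntegrable _ _
  rw [h1] at h0
  have h2 : 2 * (G / (b - a)) * G = 2 * (G ^ 2 / (b - a)) := by ring
  have h3 : (b - a) * (G / (b - a)) ^ 2 = G ^ 2 / (b - a) := by field_simp
  rw [h2, h3] at h0
  have h4 : G ^ 2 / (b - a) ≤ ∫ x in a..b, g x ^ 2 := by linarith
  rw [div_le_iff₀ hL] at h4
  linarith

/-- difference of neighbouring integrals. -/
lemma av_diff (hu : Continuous u) (i m m' : ℕ) :
    (av u i m' - av u i m) ^ 2 ≤ (1 / 4 ^ i) *
      av (fun x => (u (x + ((m' : ℝ) - m) / 4 ^ i) - u x) ^ 2) i m := by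
  have hp : (0 : ℝ) < 4 ^ i := by positivity
  have h1 : av u i m' = ∫ x in ((m : ℝ) / 4 ^ i)..(((m : ℝ) + 1) / 4 ^ i),
      u (x + ((m' : ℝ) - m) / 4 ^ i) := by
    rw [intervalIntegral.integral_comp_add_right]
    unfold av
    congr 1
    · ring
    · ring
  have h2 : av u i m' - av u i m = ∫ x in ((m : ℝ) / 4 ^ i)..(((m : ℝ) + 1) / 4 ^ i),
      (u (x + ((m' : ℝ) - m) / 4 ^ i) - u x) := by
    rw [h1, intervalIntegral.integral_sub]
    · rfl
    · exact (hu.comp (continuous_id.add continuous_const)).intervalIntegrable _ _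
    · exact hu.intervalIntegrable _ _
  rw [h2]
  have h3 := cauchy_interval (diff_cont hu (((m' : ℝ) - m) / 4 ^ i))
    (a := (m : ℝ) / 4 ^ i) (b := ((m : ℝ) + 1) / 4 ^ i)
    (by apply div_lt_div_of_pos_right _ hp; linarith)
  have h4 : ((m : ℝ) + 1) / 4 ^ i - (m : ℝ) / 4 ^ i = 1 / 4 ^ i := by ring
  rw [h4] at h3
  exact h3

lemma av_nonneg {g : ℝ → ℝ} (hg : ∀ x, 0 ≤ g x) (i m : ℕ) : 0 ≤ av g i m := by
  unfold av
  refine intervalIntegral.integral_nonneg ?_ fun x _ => hg x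
  have hp : (0 : ℝ) < 4 ^ i := by positivity
  apply div_le_div_of_nonneg_right _ hp.le
  linarith

/-- the square sum over one residue class. -/
lemma sq_sum_le (hu : Continuous u) (hc : HasCompactSupport u) (i c c' : ℕ) (hc4 : c < 4) :
    ∑ j ∈ Finset.range (4 ^ i), (av u (i + 1) (4 * j + c') - av u (i + 1) (4 * j + c)) ^ 2 ≤
      (1 / 4 ^ (i + 1)) * omr u (((c' : ℝ) - c) / 4 ^ (i + 1)) ^ 2 := by
  set h : ℝ := ((c' : ℝ) - c) / 4 ^ (i + 1) with hh
  set g : ℝ → ℝ := fun x => (u (x + h) - u x) ^ 2 with hg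
  have hgc : Continuous g := (diff_cont hu h).pow 2
  have h1 : ∀ j : ℕ, (av u (i + 1) (4 * j + c') - av u (i + 1) (4 * j + c)) ^ 2 ≤
      (1 / 4 ^ (i + 1)) * av g (i + 1) (4 * j + c) := by
    intro j
    have := av_diff hu (i + 1) (4 * j + c) (4 * j + c')
    have e : (((4 * j + c' : ℕ) : ℝ) - ((4 * j + c : ℕ) : ℝ)) / 4 ^ (i + 1) = h := by
      rw [hh]; push_cast; ring
    rw [e] at this
    exact this
  refine (Finset.sum_le_sum fun j _ => h1 j).trans ?_
  rw [← Finset.mul_sum]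
  refine mul_le_mul_of_nonneg_left ?_ (by positivity)
  have h2 : ∑ j ∈ Finset.range (4 ^ i), av g (i + 1) (4 * j + c) ≤
      ∑ m ∈ Finset.range (4 ^ (i + 1)), av g (i + 1) m := by
    rw [sum_range_four_real]
    refine Finset.sum_le_sum fun j _ => ?_
    exact Finset.single_le_sum (f := fun c => av g (i + 1) (4 * j + c))
      (fun c _ => av_nonneg (fun x => sq_nonneg _) _ _) (Finset.mem_range.mpr hc4)
  refine h2.trans ?_
  rw [av_total hgc]
  have hgs : HasCompactSupport g :=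
    (diff_compact hc h).comp_left (g := fun y : ℝ => y ^ 2) (by norm_num)
  have hgi : Integrable g volume := hgc.integrable_of_hasCompactSupport hgs
  unfold omr
  rw [Real.sq_sqrt (integral_nonneg fun x => sq_nonneg _), intervalIntegral.integral_of_le zero_le_one]
  exact setIntegral_le_integral hgi (Eventually.of_forall fun x => sq_nonneg _)

/-- The averages against the weights of level `i`. -/
noncomputable def AA (u : ℝ → ℝ) (i : ℕ) : ℝ :=
  2 ^ i * ∑ j ∈ Finset.range (4 ^ i), (th (run (Z 0) i j) : ℝ) * av u i j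

lemma AA_zero : AA u 0 = ∫ x in (0 : ℝ)..1, u x := by
  simp [AA, av, run, th]

lemma AA_diff (hu : Continuous u) (hc : HasCompactSupport u) (i : ℕ) (b : ℝ) (hb0 : 0 ≤ b)
    (hb : ∀ h : ℝ, |h| ≤ 1 / 4 ^ i → omr u h ≤ b) :
    |AA u (i + 1) - AA u i| ≤ 16 * Real.sqrt (2 ^ i) * b := by
  set T : ℕ → ℕ → ℝ := fun j c => (th (run (Z 0) (i + 1) (4 * j + c)) : ℝ) with hT
  set a : ℕ → ℕ → ℝ := fun j c => av u (i + 1) (4 * j + c) with ha
  have hTsum : ∀ j, ∑ c ∈ Finset.range 4, T j c = 2 * (th (run (Z 0) i j) : ℝ) := by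
    intro j
    have h := th_step (run (Z 0) i j)
    have h' : ((∑ c ∈ Finset.range 4, th (step (run (Z 0) i j) c) : ℕ) : ℝ) =
      ((2 * th (run (Z 0) i j) : ℕ) : ℝ) := by rw [h]
    push_cast at h'
    rw [← h']
    refine Finset.sum_congr rfl fun c hc => ?_
    simp only [hT]
    rw [run_succ _ _ _ _ (Finset.mem_range.mp hc)]
  have h1 : AA u (i + 1) = 2 ^ (i + 1) * ∑ j ∈ Finset.range (4 ^ i), ∑ c ∈ Finset.range 4,
      T j c * a j c := by
    unfold AA
    rw [sum_range_four_real]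
  have h2 : AA u i = 2 ^ (i + 1) * ∑ j ∈ Finset.range (4 ^ i),
      (1 / 4) * ((∑ c ∈ Finset.range 4, T j c) * ∑ c ∈ Finset.range 4, a j c) := by
    unfold AA
    rw [pow_succ, Finset.mul_sum, Finset.mul_sum]
    refine Finset.sum_congr rfl fun j _ => ?_
    rw [hTsum, av_split hu]
    ring
  have h3 : AA u (i + 1) - AA u i = 2 ^ (i + 1) * ((1 / 4) * ∑ c' ∈ Finset.range 4,
      ∑ c ∈ Finset.range 4, ∑ j ∈ Finset.range (4 ^ i), T j c' * (a j c' - a j c)) := by
    rw [h1, h2, ← mul_sub, ← Finset.sum_sub_distrib]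
    congr 1
    simp only [Finset.sum_range_succ (n := 3), Finset.sum_range_succ (n := 2),
      Finset.sum_range_succ (n := 1), Finset.sum_range_one]
    simp only [← Finset.sum_add_distrib, Finset.mul_sum]
    refine Finset.sum_congr rfl fun j _ => ?_
    ring
  have hterm : ∀ c' < 4, ∀ c < 4, |∑ j ∈ Finset.range (4 ^ i), T j c' * (a j c' - a j c)| ≤
      Real.sqrt (8 * 2 ^ (i + 1) * (1 / 4 ^ (i + 1) * b ^ 2)) := by
    intro c' hc' c hc4
    apply Real.abs_le_sqrt
    refine (Finset.sum_mul_sq_le_sq_mul_sq _ _ _).trans ?_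
    have e1 : ∑ j ∈ Finset.range (4 ^ i), T j c' ^ 2 ≤ 8 * 2 ^ (i + 1) := by
      refine le_trans ?_ (energy (i + 1))
      rw [sum_range_four_real]
      refine Finset.sum_le_sum fun j _ => ?_
      exact Finset.single_le_sum
        (f := fun c => (th (run (Z 0) (i + 1) (4 * j + c)) : ℝ) ^ 2)
        (fun c _ => sq_nonneg _) (Finset.mem_range.mpr hc')
    have e2 : ∑ j ∈ Finset.range (4 ^ i), (a j c' - a j c) ^ 2 ≤ 1 / 4 ^ (i + 1) * b ^ 2 := by
      refine (sq_sum_le hu hc i c c' hc4).trans ?_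
      refine mul_le_mul_of_nonneg_left ?_ (by positivity)
      have h4 : |((c' : ℝ) - c) / 4 ^ (i + 1)| ≤ 1 / 4 ^ i := by
        rw [abs_div, abs_of_pos (by positivity : (0 : ℝ) < 4 ^ (i + 1)),
          div_le_div_iff₀ (by positivity) (by positivity), pow_succ]
        have h5 : |(c' : ℝ) - c| ≤ 4 := by
          rw [abs_le]
          have : (c : ℝ) < 4 := by exact_mod_cast hc4
          have : (c' : ℝ) < 4 := by exact_mod_cast hc'
          have : (0 : ℝ) ≤ c := by positivity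
          have : (0 : ℝ) ≤ c' := by positivity
          constructor <;> linarith
        have h6 : (0 : ℝ) < 4 ^ i := by positivity
        nlinarith
      have h7 := hb _ h4
      have h8 : 0 ≤ omr u (((c' : ℝ) - c) / 4 ^ (i + 1)) := Real.sqrt_nonneg _
      gcongr
    exact mul_le_mul e1 e2 (Finset.sum_nonneg fun _ _ => sq_nonneg _) (by positivity)
  rw [h3, abs_mul, abs_mul, abs_of_pos (by positivity : (0 : ℝ) < 2 ^ (i + 1)),
    abs_of_pos (by norm_num : (0 : ℝ) < 1 / 4)]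
  have h5 : |∑ c' ∈ Finset.range 4, ∑ c ∈ Finset.range 4,
      ∑ j ∈ Finset.range (4 ^ i), T j c' * (a j c' - a j c)| ≤
      16 * Real.sqrt (8 * 2 ^ (i + 1) * (1 / 4 ^ (i + 1) * b ^ 2)) := by
    refine (Finset.abs_sum_le_sum_abs _ _).trans ?_
    have : ∀ c' ∈ Finset.range 4, |∑ c ∈ Finset.range 4,
        ∑ j ∈ Finset.range (4 ^ i), T j c' * (a j c' - a j c)| ≤
        4 * Real.sqrt (8 * 2 ^ (i + 1) * (1 / 4 ^ (i + 1) * b ^ 2)) := by
      intro c' hc'
      refine (Finset.abs_sum_le_sum_abs _ _).trans ?_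
      refine (Finset.sum_le_card_nsmul _ _ _ fun c hc => hterm c' (Finset.mem_range.mp hc') c
        (Finset.mem_range.mp hc)).trans ?_
      simp
    refine (Finset.sum_le_card_nsmul _ _ _ this).trans ?_
    simp only [Finset.card_range, nsmul_eq_mul]
    push_cast
    linarith
  have h6 : Real.sqrt (8 * 2 ^ (i + 1) * (1 / 4 ^ (i + 1) * b ^ 2)) =
      2 * Real.sqrt (2 ^ i) / 2 ^ i * b := by
    have e : (8 * 2 ^ (i + 1) * (1 / 4 ^ (i + 1) * b ^ 2) : ℝ) =
        (2 * Real.sqrt (2 ^ i) / 2 ^ i * b) ^ 2 := by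
      have hs : Real.sqrt (2 ^ i) ^ 2 = (2 : ℝ) ^ i := Real.sq_sqrt (by positivity)
      have h4 : (4 : ℝ) ^ i = 2 ^ i * 2 ^ i := by rw [← mul_pow]; norm_num
      rw [mul_pow, div_pow, mul_pow, hs, pow_succ, pow_succ, h4]
      field_simp
      ring
    rw [e, Real.sqrt_sq (by positivity)]
  rw [h6] at h5
  have hp : (0 : ℝ) < 2 ^ i := by positivity
  calc (2 : ℝ) ^ (i + 1) * (1 / 4 * |∑ c' ∈ Finset.range 4, ∑ c ∈ Finset.range 4,
      ∑ j ∈ Finset.range (4 ^ i), T j c' * (a j c' - a j c)|)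
      ≤ 2 ^ (i + 1) * (1 / 4 * (16 * (2 * Real.sqrt (2 ^ i) / 2 ^ i * b))) := by gcongr
    _ = 16 * Real.sqrt (2 ^ i) * b := by rw [pow_succ]; field_simp; ring

lemma AA_lower (hu : Continuous u) (I : ℕ) (h : ∀ x ∈ KL (Z 0) I, 1 / 2 ≤ u x) :
    1 / 2 ≤ AA u I := by
  have hp : (0 : ℝ) < 4 ^ I := by positivity
  have h1 : ∀ j ∈ Finset.range (4 ^ I), (th (run (Z 0) I j) : ℝ) * (1 / 2 * (1 / 4 ^ I)) ≤
      (th (run (Z 0) I j) : ℝ) * av u I j := by
    intro j hj
    by_cases hD : run (Z 0) I j = D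
    · rw [hD]; simp [th]
    · refine mul_le_mul_of_nonneg_left ?_ (by positivity)
      have hab : (j : ℝ) / 4 ^ I ≤ ((j : ℝ) + 1) / 4 ^ I := by
        apply div_le_div_of_nonneg_right _ hp.le; linarith
      have h2 : ∫ _x in ((j : ℝ) / 4 ^ I)..(((j : ℝ) + 1) / 4 ^ I), (1 / 2 : ℝ) ≤ av u I j := by
        apply intervalIntegral.integral_mono_on hab
        · exact continuous_const.intervalIntegrable _ _
        · exact hu.intervalIntegrable _ _
        · intro x hx
          exact h x ⟨j, Finset.mem_range.mp hj, hD, hx.1, hx.2⟩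
      rw [intervalIntegral.integral_const, smul_eq_mul] at h2
      have h3 : ((j : ℝ) + 1) / 4 ^ I - (j : ℝ) / 4 ^ I = 1 / 4 ^ I := by ring
      rw [h3] at h2
      linarith
  have h4 := Finset.sum_le_sum h1
  rw [← Finset.sum_mul] at h4
  have h5 : ∑ j ∈ Finset.range (4 ^ I), (th (run (Z 0) I j) : ℝ) = 2 ^ I := by
    exact_mod_cast mass_total I
  rw [h5] at h4
  unfold AA
  have h6 : (4 : ℝ) ^ I = 2 ^ I * 2 ^ I := by rw [← mul_pow]; norm_num
  have hp2 : (0 : ℝ) < 2 ^ I := by positivity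
  calc (1 / 2 : ℝ) = 2 ^ I * (2 ^ I * (1 / 2 * (1 / 4 ^ I))) := by rw [h6]; field_simp
    _ ≤ _ := by gcongr

lemma exists_level (hu : Continuous u) (h : ∀ x ∈ K, 1 ≤ u x) :
    ∃ I, ∀ x ∈ KL (Z 0) I, 1 / 2 ≤ u x := by
  obtain ⟨I, hI⟩ := exists_subset_nhds_of_isCompact (V := KL (Z 0))
    (directed_of_isDirected_le fun i j hij => KL_anti (Z 0) hij) (fun i => KL_compact (Z 0) i)
    (U := {x | 1 / 2 < u x}) (by
      intro x hx
      apply (isOpen_lt continuous_const hu).mem_nhds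
      have := h x hx
      simp only [Set.mem_ofPred_eq]
      linarith)
  exact ⟨I, fun x hx => (hI hx).le⟩

/-- the integrand of the Besov seminorm on the line. -/
noncomputable def wt (u : ℝ → ℝ) (k : ℝ) : ℝ≥0∞ :=
  om u k / ENNReal.ofReal (|k| ^ (1 / 4 : ℝ)) / ENNReal.ofReal |k|

lemma scale_ineq (i : ℕ) : Real.sqrt (2 ^ i) * (4 * (1 / 4 ^ i) : ℝ) ^ (1 / 4 : ℝ) ≤ 3 / 2 := by
  apply le_of_pow_le_pow_left₀ (n := 4) (by norm_num) (by norm_num)
  rw [mul_pow]
  have h1 : Real.sqrt (2 ^ i) ^ 4 = 4 ^ i := by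
    rw [show 4 = 2 * 2 by norm_num, pow_mul, Real.sq_sqrt (by positivity), ← pow_mul, mul_comm,
      pow_mul]; norm_num
  have h2 : ((4 * (1 / 4 ^ i) : ℝ) ^ (1 / 4 : ℝ)) ^ 4 = 4 * (1 / 4 ^ i) := by
    rw [← Real.rpow_natCast, ← Real.rpow_mul (by positivity)]
    norm_num
  rw [h1, h2]
  have hp : (0 : ℝ) < 4 ^ i := by positivity
  have : (4 : ℝ) ^ i * (4 * (1 / 4 ^ i)) = 4 := by field_simp
  rw [this]; norm_num

lemma piece_bound (i : ℕ) :
    ∫⁻ k in Set.Ioc (1 / 4 ^ i : ℝ) (4 * (1 / 4 ^ i)), om u k ≤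
      ENNReal.ofReal ((4 * (1 / 4 ^ i) : ℝ) ^ (1 / 4 : ℝ) * (4 * (1 / 4 ^ i))) *
        ∫⁻ k in Set.Ioc (1 / 4 ^ i : ℝ) (4 * (1 / 4 ^ i)), wt u k := by
  have hδ : (0 : ℝ) < 1 / 4 ^ i := by positivity
  set δ : ℝ := 1 / 4 ^ i with hδe
  rw [← lintegral_const_mul' _ _ ENNReal.ofReal_ne_top]
  refine setLIntegral_mono' measurableSet_Ioc fun k hk => ?_
  have hk0 : 0 < k := lt_trans hδ hk.1
  unfold wt
  rw [abs_of_pos hk0]
  have hk1 : ENNReal.ofReal k ≠ 0 := by simpa using hk0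
  have hk2 : ENNReal.ofReal (k ^ (1 / 4 : ℝ)) ≠ 0 := by
    simp only [ne_eq, ENNReal.ofReal_eq_zero, not_le]
    positivity
  have e : om u k = ENNReal.ofReal (k ^ (1 / 4 : ℝ) * k) *
      (om u k / ENNReal.ofReal (k ^ (1 / 4 : ℝ)) / ENNReal.ofReal k) := by
    rw [ENNReal.ofReal_mul (by positivity), mul_assoc, ENNReal.mul_div_cancel hk1 ENNReal.ofReal_ne_top,
      ENNReal.mul_div_cancel hk2 ENNReal.ofReal_ne_top]
  conv_lhs => rw [e]
  refine mul_le_mul_left ?_ _
  apply ENNReal.ofReal_le_ofReal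
  have h3 : k ^ (1 / 4 : ℝ) ≤ (4 * δ) ^ (1 / 4 : ℝ) :=
    Real.rpow_le_rpow hk0.le hk.2 (by norm_num)
  exact mul_le_mul h3 hk.2 hk0.le (by positivity)

lemma sum_pieces (u : ℝ → ℝ) (I : ℕ) :
    ∑ i ∈ Finset.range I, ∫⁻ k in Set.Ioc (1 / 4 ^ i : ℝ) (4 * (1 / 4 ^ i)), wt u k ≤
      ∫⁻ k, wt u k := by
  rw [← lintegral_biUnion_finset]
  · exact setLIntegral_le_lintegral _ _
  · have key : ∀ i j : ℕ, i < j → Disjoint (Set.Ioc (1 / 4 ^ i : ℝ) (4 * (1 / 4 ^ i)))
        (Set.Ioc (1 / 4 ^ j : ℝ) (4 * (1 / 4 ^ j))) := by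
      intro i j hij
      rw [Set.disjoint_left]
      intro x hx hx'
      have h1 : (4 : ℝ) ^ (i + 1) ≤ 4 ^ j := pow_le_pow_right₀ (by norm_num) hij
      have h2 : (4 * (1 / 4 ^ j) : ℝ) ≤ 1 / 4 ^ i := by
        rw [mul_one_div, div_le_div_iff₀ (by positivity) (by positivity)]
        rw [pow_succ] at h1
        linarith
      exact absurd (hx'.2.trans h2) (not_le.mpr hx.1)
    intro i _ j _ hij
    rcases lt_or_gt_of_ne hij with h | h
    · exact key i j h
    · exact (key j i h).symm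
  · intro i _; exact measurableSet_Ioc

lemma main_line (hu : Continuous u) (hc : HasCompactSupport u) (h : ∀ x ∈ K, 1 ≤ u x) :
    ENNReal.ofReal (1 / 384) ≤ eLpNorm u 2 volume + ∫⁻ k, wt u k := by
  by_cases hJ : ∫⁻ k, wt u k = ⊤
  · rw [hJ]; simp
  obtain ⟨I, hI⟩ := exists_level hu h
  have hlow := AA_lower hu I hI
  set J : ℕ → ℝ≥0∞ := fun i => ∫⁻ k in Set.Ioc (1 / 4 ^ i : ℝ) (4 * (1 / 4 ^ i)), wt u k with hJdef
  set M : ℕ → ℝ≥0∞ := fun i => ∫⁻ k in Set.Ioc (1 / 4 ^ i : ℝ) (4 * (1 / 4 ^ i)), om u k with hMdef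
  have hJi : ∀ i, J i ≠ ⊤ := fun i => ne_top_of_le_ne_top hJ (setLIntegral_le_lintegral _ _)
  have hMi : ∀ i, M i ≠ ⊤ := fun i =>
    ne_top_of_le_ne_top (ENNReal.mul_ne_top ENNReal.ofReal_ne_top (hJi i)) (piece_bound i)
  have hMJ : ∀ i, (M i).toReal ≤ ((4 * (1 / 4 ^ i) : ℝ) ^ (1 / 4 : ℝ) * (4 * (1 / 4 ^ i))) *
      (J i).toReal := by
    intro i
    have h1 := ENNReal.toReal_mono (ENNReal.mul_ne_top ENNReal.ofReal_ne_top (hJi i))
      (piece_bound (u := u) i)
    rw [ENNReal.toReal_mul, ENNReal.toReal_ofReal (by positivity)] at h1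
    exact h1
  -- the bound for the modulus
  have hom : ∀ i (k : ℝ), |k| ≤ 1 / 4 ^ i → omr u k ≤ 4 ^ i * (2 * (M i).toReal) := by
    intro i k hk
    have hδ : (0 : ℝ) < 1 / 4 ^ i := by positivity
    have h1 := om_avg hu hδ hk
    have h2 := ENNReal.toReal_mono (ENNReal.mul_ne_top (by norm_num) (hMi i)) h1
    rw [om_eq hu hc, ENNReal.toReal_mul, ENNReal.toReal_mul, ENNReal.toReal_ofReal hδ.le,
      ENNReal.toReal_ofReal (show 0 ≤ omr u k from Real.sqrt_nonneg _)] at h2
    have hp : (0 : ℝ) < 4 ^ i := by positivity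
    have h3 : omr u k = 4 ^ i * (1 / 4 ^ i * omr u k) := by field_simp
    rw [h3]
    refine mul_le_mul_of_nonneg_left ?_ hp.le
    simpa using h2
  have hdiff : ∀ i, |AA u (i + 1) - AA u i| ≤ 192 * (J i).toReal := by
    intro i
    refine (AA_diff hu hc i _ (by positivity) (hom i)).trans ?_
    have h1 := hMJ i
    have h2 := scale_ineq i
    have hp : (0 : ℝ) < 4 ^ i := by positivity
    set y := ((4 * (1 / 4 ^ i) : ℝ) ^ (1 / 4 : ℝ)) with hy
    have hJ0 : 0 ≤ (J i).toReal := ENNReal.toReal_nonneg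
    calc 16 * Real.sqrt (2 ^ i) * (4 ^ i * (2 * (M i).toReal))
        ≤ 16 * Real.sqrt (2 ^ i) * (4 ^ i * (2 * ((y * (4 * (1 / 4 ^ i))) * (J i).toReal))) := by
          gcongr
      _ = 128 * (Real.sqrt (2 ^ i) * y) * (J i).toReal := by field_simp; ring
      _ ≤ 128 * (3 / 2) * (J i).toReal := by gcongr
      _ = 192 * (J i).toReal := by ring
  have hsum : ∑ i ∈ Finset.range I, (J i).toReal ≤ (∫⁻ k, wt u k).toReal := by
    rw [← ENNReal.toReal_sum fun i _ => hJi i]
    exact ENNReal.toReal_mono hJ (sum_pieces u I)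
  have htel : AA u I ≤ AA u 0 + 192 * (∫⁻ k, wt u k).toReal := by
    have h1 : ∑ i ∈ Finset.range I, (AA u (i + 1) - AA u i) = AA u I - AA u 0 :=
      Finset.sum_range_sub (AA u) I
    have h2 : ∑ i ∈ Finset.range I, (AA u (i + 1) - AA u i) ≤
        ∑ i ∈ Finset.range I, 192 * (J i).toReal :=
      Finset.sum_le_sum fun i _ => (le_abs_self _).trans (hdiff i)
    rw [← Finset.mul_sum] at h2
    linarith
  have h0 : AA u 0 ≤ Real.sqrt (∫ x, u x ^ 2) := by
    rw [AA_zero]
    apply Real.le_sqrt_of_sq_le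
    refine (cauchy_interval hu zero_lt_one).trans ?_
    rw [sub_zero, one_mul, intervalIntegral.integral_of_le zero_le_one]
    have hgs : HasCompactSupport (fun x => u x ^ 2) :=
      hc.comp_left (g := fun y : ℝ => y ^ 2) (by norm_num)
    have hi : Integrable (fun x => u x ^ 2) volume :=
      Continuous.integrable_of_hasCompactSupport (hu.pow 2) hgs
    exact setIntegral_le_integral hi (Eventually.of_forall fun x => sq_nonneg _)
  have hJ0 : 0 ≤ (∫⁻ k, wt u k).toReal := ENNReal.toReal_nonneg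
  have hs0 : 0 ≤ Real.sqrt (∫ x, u x ^ 2) := Real.sqrt_nonneg _
  rw [eLpNorm_two_eq hu hc, ← ENNReal.ofReal_toReal hJ, ← ENNReal.ofReal_add hs0 hJ0]
  apply ENNReal.ofReal_le_ofReal
  linarith

end analysis

/-! ### Statement -/

/-- The norm of `u` in the Besov space `Λ^{pq}_α(ℝⁿ)` for `0 < α < 1`:
`‖u‖_p + (∫ (‖u(·+h) - u‖_p / |h|^α)^q dh / |h|^n)^{1/q}`, with values in `[0, ∞]`. -/
noncomputable def besovNorm {n : ℕ} (α p q : ℝ) (u : EuclideanSpace ℝ (Fin n) → ℝ) : ℝ≥0∞ :=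
  eLpNorm u (ENNReal.ofReal p) volume +
    (∫⁻ h : EuclideanSpace ℝ (Fin n),
      (eLpNorm (fun x => u (x + h) - u x) (ENNReal.ofReal p) volume /
        ENNReal.ofReal (‖h‖ ^ α)) ^ q / ENNReal.ofReal (‖h‖ ^ n)) ^ (1 / q)

/-- The Besov capacity `A_{α,p,q}` of a compact set: the infimum of `‖u‖^p` over smooth compactly
supported `u` with `u ≥ 1` on the set. -/
noncomputable def besovCap {n : ℕ} (α p q : ℝ) (K : Set (EuclideanSpace ℝ (Fin n))) : ℝ≥0∞ :=
  ⨅ (u : EuclideanSpace ℝ (Fin n) → ℝ) (_ : ContDiff ℝ ∞ u) (_ : HasCompactSupport u)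
    (_ : ∀ x ∈ K, 1 ≤ u x), besovNorm α p q u ^ p

/-- the isometry with the line. -/
noncomputable def iso : ℝ ≃ₗᵢ[ℝ] EuclideanSpace ℝ (Fin 1) :=
  (OrthonormalBasis.singleton (Fin 1) ℝ).repr

lemma cap_pos : 0 < besovCap (n := 1) (1 / 4) 2 1 (iso '' K) := by
  have hmp : MeasurePreserving (iso : ℝ → EuclideanSpace ℝ (Fin 1)) volume volume :=
    iso.measurePreserving
  refine lt_of_lt_of_le (b := ENNReal.ofReal ((1 / 384) ^ 2)) (by simp) ?_
  unfold besovCap
  refine le_iInf fun U => le_iInf fun hU => le_iInf fun hUc => le_iInf fun hUK => ?_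
  set u : ℝ → ℝ := U ∘ iso with hu
  have hcont : Continuous u := hU.continuous.comp iso.continuous
  have hcomp : HasCompactSupport u := hUc.comp_homeomorph iso.toHomeomorph
  have hK : ∀ x ∈ K, 1 ≤ u x := fun x hx => hUK _ ⟨x, hx, rfl⟩
  have hmain := main_line hcont hcomp hK
  have hnorm : besovNorm (n := 1) (1 / 4) 2 1 U = eLpNorm u 2 volume + ∫⁻ k, wt u k := by
    unfold besovNorm
    have e2 : ENNReal.ofReal 2 = 2 := by simp
    rw [e2]
    congr 1
    · rw [hu]
      exact (eLpNorm_comp_measurePreserving hU.continuous.aestronglyMeasurable hmp).symm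
    · simp only [ENNReal.rpow_one, pow_one, div_one]
      have e3 := hmp.lintegral_comp_emb (f := fun h : EuclideanSpace ℝ (Fin 1) =>
        eLpNorm (fun x => U (x + h) - U x) 2 volume / ENNReal.ofReal (‖h‖ ^ (1 / 4 : ℝ)) /
          ENNReal.ofReal ‖h‖) iso.toHomeomorph.measurableEmbedding
      rw [← e3]
      congr 1
      funext k
      unfold wt om
      have e4 : eLpNorm (fun x => U (x + iso k) - U x) 2 volume =
          eLpNorm (fun x => u (x + k) - u x) 2 volume := by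
        have := eLpNorm_comp_measurePreserving (p := 2) (g := fun x => U (x + iso k) - U x)
          ((hU.continuous.comp (continuous_id.add continuous_const)).sub
            hU.continuous).aestronglyMeasurable hmp
        rw [← this]
        congr 1
        funext x
        simp only [Function.comp, hu, map_add]
      rw [e4, iso.norm_map, Real.norm_eq_abs]
  rw [hnorm]
  have e5 : ENNReal.ofReal ((1 / 384) ^ 2) = ENNReal.ofReal (1 / 384) ^ (2 : ℝ) := by
    rw [ENNReal.ofReal_rpow_of_pos (by norm_num)]; norm_num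
  rw [e5]
  exact ENNReal.rpow_le_rpow hmain (by norm_num)

/-- The implication `H^{n - α p}(K) = 0 → A_{α,p,q}(K) = 0` fails in general for `1 ≤ q < p`. -/
theorem result : ¬ ∀ (n : ℕ) (α p q : ℝ), 1 ≤ n → 0 < α → α < 1 → 1 ≤ q → q < p → α * p ≤ n →
    ∀ K : Set (EuclideanSpace ℝ (Fin n)), IsCompact K → μH[(n : ℝ) - α * p] K = 0 →
      besovCap α p q K = 0 := by
  intro h
  have h1 := h 1 (1 / 4) 2 1 le_rfl (by norm_num) (by norm_num) le_rfl (by norm_num) (by norm_num)
    (iso '' K) (K_compact.image iso.continuous) (by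
      have e : ((1 : ℕ) : ℝ) - 1 / 4 * 2 = 1 / 2 := by norm_num
      rw [e]
      have := iso.toIsometryEquiv.hausdorffMeasure_image (1 / 2) K
      exact this.trans K_hausdorff)
  exact absurd h1 cap_pos.ne'

end Pool.Agent.Results.MP_9e0505_an.BesovNullSet
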